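import Pool.Agent.R610.IMed

open Set Filter Cardinal

namespace Pool.Agent.Results.MP_817dae_lc.NoClosedIMed

open Pool.Agent.R610.IMed

/-- `I` is an ideal on `ω`: closed under subsets and finite unions, proper, and containing all
finite sets. -/
structure IsIdeal (I : Set (Set ℕ)) : Prop where
  subset_mem : ∀ A B : Set ℕ, A ∈ I → B ⊆ A → B ∈ I
  union_mem : ∀ A B : Set ℕ, A ∈ I → B ∈ I → A ∪ B ∈ I
  univ_notMem : Set.univ ∉ I
  finite_mem : ∀ A : Set ℕ, A.Finite → A ∈ I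

/-- `I` is a maximal ideal. -/
def IsMaximalIdeal (I : Set (Set ℕ)) : Prop := IsIdeal I ∧ ∀ J, IsIdeal J → I ⊆ J → J = I

/-- `E` is an `I`-maximal eventually different family. -/
def IsIMED (I : Set (Set ℕ)) (E : Set (ℕ → ℕ)) : Prop :=
  (∀ f ∈ E, ∀ g ∈ E, f ≠ g → {n | f n = g n} ∈ I) ∧
  ∀ h : ℕ → ℕ, ∃ f ∈ E, {n | f n = h n} ∉ I

/-! ### an independent family of size continuum -/

/-- the countable index set -/
abbrev D := Σ m : ℕ, ((Fin m → Bool) → ℕ)

theorem exists_surj : ∃ e : ℕ → D, Function.Surjective e :=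
  have : Nonempty D := ⟨⟨0, fun _ => 0⟩⟩
  exists_surjective_nat D

/-- an enumeration of the index set -/
noncomputable def e : ℕ → D := Classical.choose exists_surj

theorem e_surj : Function.Surjective e := Classical.choose_spec exists_surj

/-- the independent functions -/
noncomputable def φ (x : ℕ → Bool) (n : ℕ) : ℕ := (e n).2 (fun i => x i)

theorem exists_sep (s : Finset (ℕ → Bool)) :
    ∃ m0, ∀ m ≥ m0, ∀ x ∈ s, ∀ y ∈ s, (∀ i < m, x i = y i) → x = y := by
  classical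
  let k : (ℕ → Bool) × (ℕ → Bool) → ℕ := fun q =>
    if h : q.1 ≠ q.2 then Classical.choose (Function.ne_iff.1 h) else 0
  refine ⟨(s ×ˢ s).sup (fun q => k q + 1), fun m hm x hx y hy hxy => ?_⟩
  by_contra hne
  have h1 : k (x, y) + 1 ≤ (s ×ˢ s).sup (fun q => k q + 1) :=
    Finset.le_sup (f := fun q => k q + 1) (Finset.mem_product.2 ⟨hx, hy⟩)
  have h2 : x (k (x, y)) ≠ y (k (x, y)) := by
    have h3 : k (x, y) = Classical.choose (Function.ne_iff.1 hne) := dif_pos hne
    rw [h3]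
    exact Classical.choose_spec (Function.ne_iff.1 hne)
  exact h2 (hxy _ (by omega))

theorem box_infinite (s : Finset (ℕ → Bool)) (c : (ℕ → Bool) → ℕ) : (Box φ s c).Infinite := by
  classical
  obtain ⟨m0, hm0⟩ := exists_sep s
  let h : ∀ m : ℕ, (Fin m → Bool) → ℕ := fun m t =>
    if hh : ∃ x ∈ s, (fun i : Fin m => x i) = t then c (Classical.choose hh) else 0
  have hh : ∀ m ≥ m0, ∀ x ∈ s, h m (fun i => x i) = c x := by
    intro m hm x hx
    have hex : ∃ y ∈ s, (fun i : Fin m => y i) = (fun i : Fin m => x i) := ⟨x, hx, rfl⟩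
    have h1 : h m (fun i => x i) = c (Classical.choose hex) := dif_pos hex
    obtain ⟨h2, h3⟩ := Classical.choose_spec hex
    rw [h1, hm0 m hm _ h2 x hx (fun i hi => congrFun h3 ⟨i, hi⟩)]
  choose ν hν using fun m : ℕ => e_surj (⟨m0 + m, h (m0 + m)⟩ : D)
  apply Set.infinite_of_injective_forall_mem (f := ν)
  · intro a b hab
    have h1 := hν a
    rw [hab, hν b] at h1
    have h2 := congrArg Sigma.fst h1
    have h3 : m0 + b = m0 + a := h2
    omega
  · intro m x hx
    unfold φ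
    rw [hν m]
    exact hh (m0 + m) (by omega) x hx

/-! ### the recursion -/

/-- the index set of the recursion -/
abbrev ι : Type := (continuum.{0}).ord.ToType

theorem mk_ι : #ι = continuum := by simp [ι]

theorem mk_Iio_ι (a : ι) : #(Iio a) < continuum := by
  have h := mk_Iio_lt a (by simp)
  rwa [mk_ι] at h

/-- filters with a set of independent functions -/
abbrev St := Filter ℕ × Set (ℕ → Bool)

/-- `F` decides `E` -/
def Dec (E : Set (ℕ → ℕ)) (F : Filter ℕ) : Prop :=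
  (∃ f ∈ E, ∃ g ∈ E, f ≠ g ∧ {n | f n = g n} ∈ F) ∨ ∃ h : ℕ → ℕ, ∀ f ∈ E, {n | h n ≠ f n} ∈ F

theorem exists_step (E : Set (ℕ → ℕ)) (S : St) : ∃ S' : St, S'.1 ≤ S.1 ∧ S'.2 ⊆ S.2 ∧
    (S.2 \ S'.2).Countable ∧
    (¬ S.2.Countable → Ind φ S.1 S.2 → Ind φ S'.1 S'.2 ∧ Dec E S'.1) := by
  by_cases h : ¬ S.2.Countable ∧ Ind φ S.1 S.2
  · obtain ⟨F', X', h1, h2, h3, h4, h5⟩ := one_step φ E S.1 S.2 h.1 h.2
    exact ⟨(F', X'), h1, h2, h3, fun _ _ => ⟨h4, h5⟩⟩
  · exact ⟨S, le_rfl, le_rfl, by simp, fun h1 h2 => absurd ⟨h1, h2⟩ h⟩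

/-- one step -/
noncomputable def step (E : Set (ℕ → ℕ)) (S : St) : St := Classical.choose (exists_step E S)

theorem step_spec (E : Set (ℕ → ℕ)) (S : St) : (step E S).1 ≤ S.1 ∧ (step E S).2 ⊆ S.2 ∧
    (S.2 \ (step E S).2).Countable ∧
    (¬ S.2.Countable → Ind φ S.1 S.2 → Ind φ (step E S).1 (step E S).2 ∧ Dec E (step E S).1) :=
  Classical.choose_spec (exists_step E S)

/-- the state before stage `a` -/
noncomputable def preS (a : ι) (G : ∀ b : ι, b < a → St) : St :=
  (cofinite ⊓ ⨅ b : Iio a, (G b.1 b.2).1, ⋂ b : Iio a, (G b.1 b.2).2)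

theorem exists_G (task : ι → Set (ℕ → ℕ)) :
    ∃ G : ι → St, ∀ a, G a = step (task a) (preS a (fun b _ => G b)) := by
  refine ⟨WellFoundedLT.fix (motive := fun _ => St) (fun a prev => step (task a) (preS a prev)),
    fun a => ?_⟩
  exact WellFoundedLT.fix_eq (motive := fun _ => St)
    (fun a prev => step (task a) (preS a prev)) a

/-- There is a filter deciding all tasks. -/
theorem exists_filter (task : ι → Set (ℕ → ℕ)) :
    ∃ F : Filter ℕ, F.NeBot ∧ F ≤ cofinite ∧ ∀ a, Dec (task a) F := by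
  obtain ⟨G, hG⟩ := exists_G task
  set P : ι → St := fun a => preS a (fun b _ => G b) with hP
  have hGs : ∀ a, G a = step (task a) (P a) := hG
  have hP1 : ∀ a, (P a).1 = cofinite ⊓ ⨅ b : Iio a, (G b.1).1 := fun a => rfl
  have hP2 : ∀ a, (P a).2 = ⋂ b : Iio a, (G b.1).2 := fun a => rfl
  have hGP1 : ∀ a, (G a).1 ≤ (P a).1 := fun a => by rw [hGs a]; exact (step_spec _ _).1
  have hGP2 : ∀ a, (G a).2 ⊆ (P a).2 := fun a => by rw [hGs a]; exact (step_spec _ _).2.1
  have hcount : ∀ a, ((P a).2 \ (G a).2).Countable := fun a => by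
    rw [hGs a]; exact (step_spec _ _).2.2.1
  have hPG1 : ∀ a b, b < a → (P a).1 ≤ (G b).1 := fun a b hb => by
    rw [hP1]
    exact inf_le_right.trans (iInf_le (fun b : Iio a => (G b.1).1) ⟨b, hb⟩)
  have hPG2 : ∀ a b, b < a → (P a).2 ⊆ (G b).2 := fun a b hb => by
    rw [hP2]
    exact iInter_subset (fun b : Iio a => (G b.1).2) ⟨b, hb⟩
  have hGcof : ∀ a, (G a).1 ≤ cofinite := fun a => (hGP1 a).trans (by rw [hP1]; exact inf_le_left)
  have hanti : ∀ a b, b ≤ a → (G a).1 ≤ (G b).1 := by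
    intro a b hb
    rcases hb.eq_or_lt with rfl | hlt
    · exact le_rfl
    · exact (hGP1 a).trans (hPG1 a b hlt)
  -- the removed functions
  have hrem : ∀ a, (univ : Set (ℕ → Bool)) \ (P a).2 ⊆ ⋃ b : Iio a, ((P b.1).2 \ (G b.1).2) := by
    intro a x hx
    have h1 : ∃ b, b < a ∧ x ∉ (G b).2 := by
      by_contra hcon
      push Not at hcon
      apply hx.2
      rw [hP2, mem_iInter]
      exact fun b => hcon b.1 b.2
    obtain ⟨b, ⟨hb1, hb2⟩, hmin⟩ := WellFounded.has_min (wellFounded_lt (α := ι))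
      {b | b < a ∧ x ∉ (G b).2} h1
    rw [mem_iUnion]
    refine ⟨⟨b, hb1⟩, ?_, hb2⟩
    show x ∈ (P b).2
    rw [hP2, mem_iInter]
    intro b'
    by_contra hcon
    exact hmin b'.1 ⟨lt_trans b'.2 hb1, hcon⟩ b'.2
  have hXmk : #(ℕ → Bool) = continuum := by simp
  have hunc : ∀ a, ¬ (P a).2.Countable := by
    intro a hc
    have h1 : (univ : Set (ℕ → Bool)) ⊆ (P a).2 ∪ ⋃ b : Iio a, ((P b.1).2 \ (G b.1).2) := by
      intro x _
      by_cases h : x ∈ (P a).2
      · left; exact h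
      · right; exact hrem a ⟨mem_univ _, h⟩
    have h2 : #(univ : Set (ℕ → Bool)) ≤
        #(((P a).2 ∪ ⋃ b : Iio a, ((P b.1).2 \ (G b.1).2) : Set (ℕ → Bool))) := mk_le_mk_of_subset h1
    have h3 : #(⋃ b : Iio a, ((P b.1).2 \ (G b.1).2) : Set (ℕ → Bool)) ≤ #(Iio a) * ℵ₀ := by
      refine (mk_iUnion_le _).trans ?_
      gcongr
      exact ciSup_le' fun b => (hcount b.1).le_aleph0
    have h4 : #(Iio a) * ℵ₀ < continuum :=
      mul_lt_of_lt aleph0_le_continuum (mk_Iio_ι a) aleph0_lt_continuum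
    have h5 : #((P a).2 : Set (ℕ → Bool)) < continuum :=
      lt_of_le_of_lt hc.le_aleph0 aleph0_lt_continuum
    have h6 := (mk_union_le (P a).2 (⋃ b : Iio a, ((P b.1).2 \ (G b.1).2)))
    have h7 := add_lt_of_lt aleph0_le_continuum h5 (lt_of_le_of_lt h3 h4)
    rw [mk_univ, hXmk] at h2
    exact absurd (h2.trans h6) (not_le.2 h7)
  -- independence
  have hInd : ∀ a, Ind φ (P a).1 (P a).2 := by
    intro a
    induction a using WellFoundedLT.induction with
    | ind a ih =>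
      have hG' : ∀ b, b < a → Ind φ (G b).1 (G b).2 := fun b hb => by
        rw [hGs b]
        exact ((step_spec (task b) (P b)).2.2.2 (hunc b) (ih b hb)).1
      intro s hs c A hA
      by_cases hne : Nonempty (Iio a)
      · have hle : (⨅ b : Iio a, (G b.1).1) ≤ cofinite := by
          obtain ⟨b⟩ := hne
          exact (iInf_le (fun b : Iio a => (G b.1).1) b).trans (hGcof b.1)
        rw [hP1, inf_eq_right.2 hle, mem_iInf_of_directed] at hA
        · obtain ⟨b, hb⟩ := hA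
          exact hG' b.1 b.2 s (hs.trans (hPG2 a b.1 b.2)) c A hb
        · intro b b'
          rcases le_total b.1 b'.1 with h | h
          · exact ⟨b', hanti _ _ h, le_rfl⟩
          · exact ⟨b, le_rfl, hanti _ _ h⟩
      · have hemp : (⨅ b : Iio a, (G b.1).1) = ⊤ := by
          have : IsEmpty (Iio a) := not_nonempty_iff.1 hne
          exact iInf_of_empty _
        rw [hP1, hemp, inf_top_eq, mem_cofinite] at hA
        by_contra hcon
        rw [Set.not_nonempty_iff_eq_empty] at hcon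
        apply box_infinite s c
        refine hA.subset ?_
        intro n hn hnA
        have : n ∈ Box φ s c ∩ A := ⟨hn, hnA⟩
        rw [hcon] at this
        exact this
  have hG'' : ∀ a, Ind φ (G a).1 (G a).2 ∧ Dec (task a) (G a).1 := fun a => by
    rw [hGs a]
    exact (step_spec (task a) (P a)).2.2.2 (hunc a) (hInd a)
  have hneι : Nonempty ι := by
    rw [← mk_ne_zero_iff, mk_ι]
    exact continuum_ne_zero
  have hdir : Directed (fun x y : Filter ℕ => x ≥ y) (fun a => (G a).1) := by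
    intro b b'
    rcases le_total b b' with h | h
    · exact ⟨b', hanti _ _ h, le_rfl⟩
    · exact ⟨b, le_rfl, hanti _ _ h⟩
  refine ⟨⨅ a, (G a).1, ?_, ?_, ?_⟩
  · apply iInf_neBot_of_directed hdir
    intro a
    rw [Filter.neBot_iff]
    intro hbot
    have h1 : (∅ : Set ℕ) ∈ (G a).1 := by rw [hbot]; exact mem_bot
    obtain ⟨n, _, hn⟩ := (hG'' a).1 ∅ (by simp) (fun _ => 0) ∅ h1
    exact hn
  · obtain ⟨a⟩ := hneι
    exact (iInf_le _ a).trans (hGcof a)
  · intro a
    have hle : (⨅ a, (G a).1) ≤ (G a).1 := iInf_le _ a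
    rcases (hG'' a).2 with ⟨f, hf, g, hg, hfg, h⟩ | ⟨h, hh⟩
    · exact Or.inl ⟨f, hf, g, hg, hfg, hle h⟩
    · exact Or.inr ⟨h, fun f hf => hle (hh f hf)⟩

theorem mk_closed_le : #{E : Set (ℕ → ℕ) // IsClosed E} ≤ continuum := by
  let B := TopologicalSpace.countableBasis (ℕ → ℕ)
  have hBc : B.Countable := TopologicalSpace.countable_countableBasis _
  have hBb : TopologicalSpace.IsTopologicalBasis B := TopologicalSpace.isBasis_countableBasis _
  have hinj : Function.Injective (fun E : {E : Set (ℕ → ℕ) // IsClosed E} =>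
      ({U : B | (U : Set (ℕ → ℕ)) ⊆ (E : Set (ℕ → ℕ))ᶜ} : Set B)) := by
    intro E E' h
    apply Subtype.ext
    have key : ∀ E : {E : Set (ℕ → ℕ) // IsClosed E}, (E : Set (ℕ → ℕ))ᶜ =
        ⋃ U ∈ ({U : B | (U : Set (ℕ → ℕ)) ⊆ (E : Set (ℕ → ℕ))ᶜ} : Set B), (U : Set (ℕ → ℕ)) := by
      intro E
      apply Subset.antisymm
      · intro x hx
        obtain ⟨U, hU1, hU2, hU3⟩ := hBb.exists_subset_of_mem_open hx E.2.isOpen_compl
        exact mem_iUnion₂.2 ⟨⟨U, hU1⟩, hU3, hU2⟩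
      · intro x hx
        obtain ⟨U, hU, hxU⟩ := mem_iUnion₂.1 hx
        exact hU hxU
    have h' : ({U : B | (U : Set (ℕ → ℕ)) ⊆ (E : Set (ℕ → ℕ))ᶜ} : Set B) =
      ({U : B | (U : Set (ℕ → ℕ)) ⊆ (E' : Set (ℕ → ℕ))ᶜ} : Set B) := h
    have h2 : (E : Set (ℕ → ℕ))ᶜ = (E' : Set (ℕ → ℕ))ᶜ := by
      rw [key E, key E', h']
    exact compl_injective h2
  have h1 := mk_le_of_injective hinj
  refine h1.trans ?_
  rw [mk_set]
  have h2 : #B ≤ ℵ₀ := hBc.le_aleph0
  calc (2 : Cardinal) ^ #B ≤ 2 ^ ℵ₀ := power_le_power_left two_ne_zero h2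
    _ = continuum := two_power_aleph0

/-- There is a maximal ideal `I` on `ω` such that no closed subset of `ω^ω` is an `I`-maximal
eventually different family. -/
theorem result : ∃ I : Set (Set ℕ), IsMaximalIdeal I ∧
    ∀ E : Set (ℕ → ℕ), IsClosed E → ¬ IsIMED I E := by
  classical
  have hle : #{E : Set (ℕ → ℕ) // IsClosed E} ≤ #ι := by
    rw [mk_ι]; exact mk_closed_le
  obtain ⟨j⟩ := Cardinal.le_def _ _ |>.1 hle
  have : Nonempty {E : Set (ℕ → ℕ) // IsClosed E} := ⟨⟨∅, isClosed_empty⟩⟩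
  let task : ι → Set (ℕ → ℕ) := fun a => (Function.invFun j a : {E : Set (ℕ → ℕ) // IsClosed E})
  have htask : ∀ E : Set (ℕ → ℕ), IsClosed E → ∃ a, task a = E := by
    intro E hE
    refine ⟨j ⟨E, hE⟩, ?_⟩
    simp only [task]
    rw [Function.leftInverse_invFun j.injective]
  obtain ⟨F, hFne, hFcof, hFdec⟩ := exists_filter task
  obtain ⟨U, hU⟩ := Ultrafilter.exists_le F
  refine ⟨{A | Aᶜ ∈ U}, ⟨⟨?_, ?_, ?_, ?_⟩, ?_⟩, ?_⟩
  · intro A B hA hBA
    exact mem_of_superset hA (compl_subset_compl.2 hBA)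
  · intro A B hA hB
    show (A ∪ B)ᶜ ∈ U
    rw [compl_union]
    exact inter_mem hA hB
  · show (univ : Set ℕ)ᶜ ∉ U
    rw [compl_univ]
    exact U.empty_notMem
  · intro A hA
    show Aᶜ ∈ U
    apply hU
    apply hFcof
    rw [mem_cofinite, compl_compl]
    exact hA
  · intro J hJ hIJ
    apply Subset.antisymm _ hIJ
    intro A hA
    show Aᶜ ∈ U
    by_contra hcon
    rw [Ultrafilter.compl_mem_iff_notMem, not_not] at hcon
    have h1 : Aᶜ ∈ J := by
      apply hIJ
      show Aᶜᶜ ∈ U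
      rw [compl_compl]; exact hcon
    have h2 := hJ.union_mem A Aᶜ hA h1
    rw [union_compl_self] at h2
    exact hJ.univ_notMem h2
  · rintro E hE ⟨hE1, hE2⟩
    obtain ⟨a, rfl⟩ := htask E hE
    rcases hFdec a with ⟨f, hf, g, hg, hfg, h⟩ | ⟨h, hh⟩
    · have h1 : {n | f n = g n}ᶜ ∈ U := hE1 f hf g hg hfg
      rw [Ultrafilter.compl_mem_iff_notMem] at h1
      exact h1 (hU h)
    · obtain ⟨f, hf, hn⟩ := hE2 h
      apply hn
      show {n | f n = h n}ᶜ ∈ U
      have h1 := hU (hh f hf)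
      refine mem_of_superset h1 ?_
      intro n hn' heq
      exact hn' (show h n = f n from (show f n = h n from heq).symm)

end Pool.Agent.Results.MP_817dae_lc.NoClosedIMed
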